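import Pool.Agent.X245.DP.Poly

/-!
# MP_4842e4_lc: divisible pinwheel scheduling with durations, density at most 1/2

For an instance with frequency divisibility and density at most `1/2`: it is feasible if and only
if `P + p_j ≤ f₁` for every job `j` with `f_j > f₁`, where `P` is the total duration of the jobs of
frequency `f₁`. The schedule consists of frames of length at most `f₁`; the jobs of frequency `f₁`
are in every frame, and the others are put, in the order of their frequencies, into residue classes
of frames, an empty frame being used only if no non-empty frame has room.
-/

namespace Pool.Agent.Results.MP_4842e4_lc.HalfDensityInP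

open Pool.Agent.NPC Pool.Agent.X245.DP

set_option autoImplicit false

/-- For the instances with frequency divisibility and density at most `1/2`, feasibility is
equivalent to the criterion `Crit`, which is decidable in polynomial time; and the set of the
feasible instances with frequency divisibility and density at most `1/2` is in P. -/
theorem result :
    (∀ V, Inst V → Divis V → density V ≤ 1 / 2 → (Feasible V ↔ Crit V)) ∧ InPP Crit ∧
    InPP (fun V => (Inst V ∧ Divis V ∧ density V ≤ 1 / 2) ∧ Feasible V) :=
  ⟨fun _ h1 h2 h3 => feasible_iff h1 h2 h3, inPP_crit, inPP_feasible⟩

end Pool.Agent.Results.MP_4842e4_lc.HalfDensityInP
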